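import Pool.Agent.W_30d1b9_h50.Ro

/-!
# MP_30d1b9_co, Circular Nim: windows in coordinates, the P-positions used in the proof
-/

namespace Pool.Agent.W_30d1b9_h50

variable {n k : ℕ} [NeZero n]

theorem val_sub_cases (j i : ZMod n) : (i.val ≤ j.val ∧ (j - i).val = j.val - i.val) ∨
    (j.val < i.val ∧ (j - i).val = j.val + n - i.val) := by
  rcases Nat.lt_or_ge j.val i.val with h | h
  · right
    refine ⟨h, ?_⟩
    have h1 : (i - j).val = i.val - j.val := ZMod.val_sub h.le
    have hne : i - j ≠ 0 := by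
      intro h0
      rw [h0, ZMod.val_zero] at h1
      omega
    have : NeZero (i - j) := ⟨hne⟩
    rw [← neg_sub, ZMod.val_neg_of_ne_zero, h1]
    have := ZMod.val_lt i
    omega
  · left
    exact ⟨h, ZMod.val_sub h⟩

theorem mem_window (hk : k ≤ n) (i j : ZMod n) : j ∈ window n k i ↔ (j - i).val < k := by
  constructor
  · rintro ⟨t, ht, rfl⟩
    rw [add_sub_cancel_left, ZMod.val_natCast]
    exact (Nat.mod_le _ _).trans_lt ht
  · intro h
    refine ⟨(j - i).val, h, ?_⟩
    rw [ZMod.natCast_zmod_val]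
    ring

/-- the stacks outside the window starting at `i`, `k = n - g` -/
theorem not_mem_window {g : ℕ} (hg : g + k = n) (i j : ZMod n) : j ∉ window n k i ↔
    (j.val < i.val ∧ i.val ≤ j.val + g) ∨ i.val + k ≤ j.val := by
  rw [mem_window (by omega)]
  have h1 := ZMod.val_lt i
  have h2 := ZMod.val_lt j
  rcases val_sub_cases j i with h | h
  · omega
  · omega

theorem val_cast {v : ℕ} (hv : v < n) : ((v : ℕ) : ZMod n).val = v := ZMod.val_natCast_of_lt hv

theorem card_val_lt {a : ℕ} (ha : a ≤ n) :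
    (Finset.univ.filter (fun x : ZMod n => x.val < a)).card = a := by
  refine (Finset.card_bij (t := Finset.range a) (fun x _ => x.val) ?_ ?_ ?_).trans
    (Finset.card_range a)
  · intro x hx
    exact Finset.mem_range.2 (Finset.mem_filter.1 hx).2
  · intro x _ y _ h
    exact ZMod.val_injective _ h
  · intro b hb
    rw [Finset.mem_range] at hb
    refine ⟨((b : ℕ) : ZMod n), Finset.mem_filter.2 ⟨Finset.mem_univ _, ?_⟩, ?_⟩
    · rw [val_cast (by omega)]
      exact hb
    · exact val_cast (by omega)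

/-- the places `b` beyond `2g - 1` -/
structure Bd (n g : ℕ) (b : ℕ → Prop) : Prop where
  lo : ∀ v, b v → 2 * g ≤ v
  hi : ∀ v, b v → v + 2 = n ∨ v + g + 2 ≤ n
  uniq : ∀ v w, b v → b w → v ≤ w → w < v + g → v = w
  ex : ∀ a, 2 * g ≤ a → a + g + 1 ≤ n → ∃ v, b v ∧ a ≤ v ∧ v < a + g
  last : ∀ v, b v → v + 2 = n → 3 * g + 1 ≤ n

theorem bd_false {g : ℕ} (hg : 2 ≤ g) (hn : n = 2 * g + 2) : Bd n g fun _ => False where
  lo := fun _ h => h.elim
  hi := fun _ h => h.elim
  uniq := fun _ _ h => h.elim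
  ex := fun a h1 h2 => by omega
  last := fun _ h => h.elim

theorem bd_main {g : ℕ} (hg : 2 ≤ g) (hn : n = 2 * g + 1 ∨ 3 * g + 1 ≤ n) :
    Bd n g fun v => 2 * g ≤ v ∧ ∃ c, v + 2 + g * c = n where
  lo := fun _ h => h.1
  hi := by
    rintro v ⟨h1, c, hc⟩
    rcases Nat.eq_zero_or_pos c with h | h
    · rw [h] at hc
      omega
    · right
      have h2 : g * 1 ≤ g * c := Nat.mul_le_mul_left g h
      omega
  uniq := by
    rintro v w ⟨_, c, hc⟩ ⟨_, c', hc'⟩ h1 h2
    rcases lt_trichotomy c c' with h | h | h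
    · have h3 : g * (c + 1) ≤ g * c' := Nat.mul_le_mul_left g h
      rw [mul_add] at h3
      omega
    · rw [h] at hc
      omega
    · have h3 : g * (c' + 1) ≤ g * c := Nat.mul_le_mul_left g h
      rw [mul_add] at h3
      omega
  ex := by
    intro a h1 h2
    -- the smallest multiple of `g` which is at least `n - 1 - (a + g)`
    obtain ⟨d, hd⟩ : ∃ d, n = a + g + 1 + d := ⟨n - (a + g + 1), by omega⟩
    obtain ⟨c, hc1, hc2⟩ : ∃ c, d ≤ g * c ∧ g * c < d + g := by
      refine ⟨(d + g - 1) / g, ?_, ?_⟩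
      · have h3 := Nat.div_add_mod (d + g - 1) g
        have h4 := Nat.mod_lt (d + g - 1) (show 0 < g by omega)
        omega
      · have h3 := Nat.mul_div_le (d + g - 1) g
        omega
    exact ⟨a + g + d - 1 - g * c, ⟨by omega, c, by omega⟩, by omega, by omega⟩
  last := by
    rintro v ⟨h1, c, hc⟩ h2
    omega

/-- the support of the P-position `p` -/
def T1 (n g : ℕ) (b : ℕ → Prop) : Set (ZMod n) :=
  {x | x.val + 1 = g ∨ x.val + 1 = 2 * g ∨ b x.val ∨ x.val + 1 = n}

theorem T1_one {g : ℕ} {b : ℕ → Prop} (hb : Bd n g b) (hg : 2 ≤ g) (hk : g + k = n)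
    (hn : 2 * g + 1 ≤ n) (i : ZMod n) : ∃ y ∈ T1 n g b, ∀ x ∈ T1 n g b, x.val = y.val →
      x ∉ window n k i := by
  have hi := ZMod.val_lt i
  have key : ∀ v : ℕ, v < n → (v + 1 = g ∨ v + 1 = 2 * g ∨ b v ∨ v + 1 = n) →
      ((v < i.val ∧ i.val ≤ v + g) ∨ i.val + k ≤ v) →
      ∃ y ∈ T1 n g b, ∀ x ∈ T1 n g b, x.val = y.val → x ∉ window n k i := by
    intro v hv h1 h2
    refine ⟨((v : ℕ) : ZMod n), ?_, fun x _ hx => ?_⟩
    · show _ ∨ _ ∨ _ ∨ _
      rw [val_cast hv]
      exact h1
    · rw [not_mem_window hk, hx, val_cast hv]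
      exact h2
  rcases Nat.lt_or_ge i.val g with h1 | h1
  · exact key (n - 1) (by omega) (by omega) (by omega)
  rcases Nat.lt_or_ge i.val (2 * g) with h2 | h2
  · exact key (g - 1) (by omega) (by omega) (by omega)
  rcases Nat.lt_or_ge i.val (3 * g) with h3 | h3
  · exact key (2 * g - 1) (by omega) (by omega) (by omega)
  · obtain ⟨v, hv1, hv2, hv3⟩ := hb.ex (i.val - g) (by omega) (by omega)
    exact key v (by omega) (Or.inr (Or.inr (Or.inl hv1))) (by omega)

theorem T1_two {g : ℕ} {b : ℕ → Prop} (hb : Bd n g b) (hg : 2 ≤ g) (hk : g + k = n)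
    (hn : 2 * g + 1 ≤ n) (y : ZMod n) (hy : y ∈ T1 n g b) : ∃ i : ZMod n, ∀ x ∈ T1 n g b,
      x.val ≠ y.val → x ∈ window n k i := by
  have hyn := ZMod.val_lt y
  have key : ∀ v : ℕ, v < n → (∀ w : ℕ, w < n → w ≠ y.val →
      (w + 1 = g ∨ w + 1 = 2 * g ∨ b w ∨ w + 1 = n) → ¬ ((w < v ∧ v ≤ w + g) ∨ v + k ≤ w)) →
      ∃ i : ZMod n, ∀ x ∈ T1 n g b, x.val ≠ y.val → x ∈ window n k i := by
    intro v hv h
    refine ⟨((v : ℕ) : ZMod n), fun x hx hxy => ?_⟩
    by_contra hcon
    rw [not_mem_window hk, val_cast hv] at hcon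
    exact h x.val (ZMod.val_lt x) hxy hx hcon
  rcases hy with h | h | h | h
  · refine key (2 * g - 1) (by omega) fun w hw hwy h1 => ?_
    rcases h1 with h1 | h1 | h1 | h1
    · omega
    · omega
    · have h2 := hb.lo w h1
      have h3 := hb.hi w h1
      omega
    · omega
  · refine key (2 * g) (by omega) fun w hw hwy h1 => ?_
    rcases h1 with h1 | h1 | h1 | h1
    · omega
    · omega
    · have h2 := hb.lo w h1
      have h3 := hb.hi w h1
      omega
    · omega
  · have h4 := hb.lo _ h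
    rcases hb.hi _ h with h5 | h5
    · have h6 := hb.last _ h h5
      refine key (n - 1) (by omega) fun w hw hwy h1 => ?_
      rcases h1 with h1 | h1 | h1 | h1
      · omega
      · omega
      · intro h7
        have h8 := hb.hi w h1
        have h9 := hb.uniq w y.val h1 h (by omega) (by omega)
        omega
      · omega
    · refine key (y.val + g) (by omega) fun w hw hwy h1 => ?_
      rcases h1 with h1 | h1 | h1 | h1
      · omega
      · omega
      · intro h7
        have h8 := hb.hi w h1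
        have h9 := hb.uniq y.val w h h1 (by omega) (by omega)
        omega
      · omega
  · refine key (g - 1) (by omega) fun w hw hwy h1 => ?_
    rcases h1 with h1 | h1 | h1 | h1
    · omega
    · omega
    · have h2 := hb.lo w h1
      have h3 := hb.hi w h1
      omega
    · omega

open scoped Classical in
/-- the P-position `p = c 1_(T1)` -/
theorem isP_one {g : ℕ} {b : ℕ → Prop} (hb : Bd n g b) (hg : 2 ≤ g) (hk : g + k = n)
    (hn : 2 * g + 1 ≤ n) (c : ℕ) : IsP n k fun x => if x ∈ T1 n g b then c else 0 := by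
  refine isP_cluster' (T1 n g b) (fun x => x.val) (T1_one hb hg hk hn) (T1_two hb hg hk hn)
    _ (fun x hx => if_neg hx) c ?_
  intro y hy C hC
  rw [Finset.sum_eq_single y]
  · exact if_pos hy
  · intro x hx hxy
    exact absurd (ZMod.val_injective _ ((hC x).1 hx).2) hxy
  · intro h
    exact absurd ((hC y).2 ⟨hy, rfl⟩) h

/-- the support of the target in the main case -/
def T2 (n g : ℕ) (b : ℕ → Prop) : Set (ZMod n) :=
  {x | x.val < g ∨ x.val + 1 = 2 * g ∨ b x.val}

/-- the cluster of a stack -/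
def kap (g v : ℕ) : ℕ := if v + 1 < g then 0 else v

theorem kap_eq {g v w : ℕ} (h : kap g v = kap g w) :
    v = w ∨ (v + 1 < g ∧ w + 1 < g) ∨ (w + 1 < g ∧ v = 0 ∧ ¬ v + 1 < g) ∨
      (v + 1 < g ∧ w = 0 ∧ ¬ w + 1 < g) := by
  unfold kap at h
  split_ifs at h <;> omega

theorem T2_one {g : ℕ} {b : ℕ → Prop} (hb : Bd n g b) (hg : 2 ≤ g) (hk : g + k = n)
    (hn : 2 * g + 1 ≤ n) (hlast : n = 2 * g + 1 ∨ b (n - 2)) (i : ZMod n) :
    ∃ y ∈ T2 n g b, ∀ x ∈ T2 n g b, kap g x.val = kap g y.val → x ∉ window n k i := by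
  have hi := ZMod.val_lt i
  have key : ∀ v : ℕ, v < n → g ≤ v + 1 → (v < g ∨ v + 1 = 2 * g ∨ b v) →
      ((v < i.val ∧ i.val ≤ v + g) ∨ i.val + k ≤ v) →
      ∃ y ∈ T2 n g b, ∀ x ∈ T2 n g b, kap g x.val = kap g y.val → x ∉ window n k i := by
    intro v hv h0 h1 h2
    refine ⟨((v : ℕ) : ZMod n), ?_, fun x _ hx => ?_⟩
    · show _ ∨ _ ∨ _
      rw [val_cast hv]
      exact h1
    · rw [val_cast hv] at hx
      have h3 : x.val = v := by
        have h4 := kap_eq hx
        omega
      rw [not_mem_window hk, h3]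
      exact h2
  rcases Nat.lt_or_ge (i.val + 1) g with h1 | h1
  · rcases hlast with h | h
    · exact key (n - 2) (by omega) (by omega) (by omega) (by omega)
    · exact key (n - 2) (by omega) (by omega) (Or.inr (Or.inr h)) (by omega)
  rcases Nat.lt_or_ge i.val g with h0 | h0
  · refine ⟨0, ?_, fun x hx hxe => ?_⟩
    · show _ ∨ _ ∨ _
      rw [ZMod.val_zero]
      omega
    · rw [ZMod.val_zero] at hxe
      have h3 := kap_eq hxe
      rw [not_mem_window hk]
      omega
  rcases Nat.lt_or_ge i.val (2 * g) with h2 | h2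
  · exact key (g - 1) (by omega) (by omega) (by omega) (by omega)
  rcases Nat.lt_or_ge i.val (3 * g) with h3 | h3
  · exact key (2 * g - 1) (by omega) (by omega) (by omega) (by omega)
  · obtain ⟨v, hv1, hv2, hv3⟩ := hb.ex (i.val - g) (by omega) (by omega)
    exact key v (by omega) (by omega) (Or.inr (Or.inr hv1)) (by omega)

theorem T2_two {g : ℕ} {b : ℕ → Prop} (hb : Bd n g b) (hg : 2 ≤ g) (hk : g + k = n)
    (hn : 2 * g + 1 ≤ n) (y : ZMod n) (hy : y ∈ T2 n g b) : ∃ i : ZMod n, ∀ x ∈ T2 n g b,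
      kap g x.val ≠ kap g y.val → x ∈ window n k i := by
  have hyn := ZMod.val_lt y
  have key : ∀ v : ℕ, v < n → (∀ w : ℕ, w < n → kap g w ≠ kap g y.val →
      (w < g ∨ w + 1 = 2 * g ∨ b w) → ¬ ((w < v ∧ v ≤ w + g) ∨ v + k ≤ w)) →
      ∃ i : ZMod n, ∀ x ∈ T2 n g b, kap g x.val ≠ kap g y.val → x ∈ window n k i := by
    intro v hv h
    refine ⟨((v : ℕ) : ZMod n), fun x hx hxy => ?_⟩
    by_contra hcon
    rw [not_mem_window hk, val_cast hv] at hcon
    exact h x.val (ZMod.val_lt x) hxy hx hcon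
  have hne : ∀ w : ℕ, kap g w ≠ kap g y.val → w ≠ y.val := fun w h he => h (by rw [he])
  have hbig : ∀ w : ℕ, kap g w ≠ kap g y.val → y.val + 1 < g → ¬ w + 1 < g := by
    intro w h h1 h2
    apply h
    unfold kap
    rw [if_pos h1, if_pos h2]
  rcases Nat.lt_or_ge (y.val + 1) g with h0 | h0
  · refine key (g - 1) (by omega) fun w hw hwy h1 => ?_
    have h2 := hbig w hwy h0
    rcases h1 with h1 | h1 | h1
    · omega
    · omega
    · have h3 := hb.lo w h1
      have h4 := hb.hi w h1
      omega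
  rcases hy with h | h | h
  · refine key (2 * g - 1) (by omega) fun w hw hwy h1 => ?_
    have h5 := hne w hwy
    rcases h1 with h1 | h1 | h1
    · omega
    · omega
    · have h2 := hb.lo w h1
      have h3 := hb.hi w h1
      omega
  · refine key (2 * g) (by omega) fun w hw hwy h1 => ?_
    have h5 := hne w hwy
    rcases h1 with h1 | h1 | h1
    · omega
    · omega
    · have h2 := hb.lo w h1
      have h3 := hb.hi w h1
      omega
  · have h4 := hb.lo _ h
    rcases hb.hi _ h with h5 | h5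
    · have h6 := hb.last _ h h5
      refine key (n - 1) (by omega) fun w hw hwy h1 => ?_
      have h10 := hne w hwy
      rcases h1 with h1 | h1 | h1
      · omega
      · omega
      · intro h7
        have h8 := hb.hi w h1
        have h9 := hb.uniq w y.val h1 h (by omega) (by omega)
        omega
    · refine key (y.val + g) (by omega) fun w hw hwy h1 => ?_
      have h10 := hne w hwy
      rcases h1 with h1 | h1 | h1
      · omega
      · omega
      · intro h7
        have h8 := hb.hi w h1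
        have h9 := hb.uniq y.val w h h1 (by omega) (by omega)
        omega

end Pool.Agent.W_30d1b9_h50
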