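import Mathlib

/-!
# MP_30d1b9_co, Circular Nim: the game, rotations, two families of P-positions
-/

namespace Pool.Agent.W_30d1b9_h50

/-- The `k` consecutive stacks `i, i+1, ..., i+k-1` (indices mod `n`). -/
def window (n k : ℕ) (i : ZMod n) : Set (ZMod n) := {j | ∃ t : ℕ, t < k ∧ j = i + (t : ZMod n)}

/-- `q` is obtained from `p` by a move of `CN(n,k)`: for some `i` only the stacks `i, ..., i+k-1`
change, no stack grows, and at least one token is removed. -/
def Move (n k : ℕ) (p q : ZMod n → ℕ) : Prop :=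
  ∃ i : ZMod n, (∀ j, j ∉ window n k i → q j = p j) ∧ (∀ j, q j ≤ p j) ∧ q ≠ p

variable {n k : ℕ} [NeZero n]

theorem Move.lt {p q : ZMod n → ℕ} (h : Move n k p q) : ∑ i, q i < ∑ i, p i := by
  obtain ⟨i, _, hle, hne⟩ := h
  refine Finset.sum_lt_sum (fun j _ => hle j) ?_
  by_contra hcon
  push Not at hcon
  exact hne (funext fun j => le_antisymm (hle j) (hcon j (Finset.mem_univ j)))

/-- The P-positions of `CN(n,k)`: `p` is a P-position iff no move leads from `p` to a P-position. -/
def IsP (n k : ℕ) [NeZero n] (p : ZMod n → ℕ) : Prop :=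
  ∀ q : ZMod n → ℕ, Move n k p q → ¬ IsP n k q
termination_by ∑ i, p i
decreasing_by exact Move.lt (by assumption)

/-- `z` is an invariant vector of `CN(n,k)`: a 0/1 vector such that `p + c z` is a P-position for
every P-position `p` and every integer `c` (possibly negative) with `p + c z ≥ 0`. -/
def Invariant (n k : ℕ) [NeZero n] (z : ZMod n → ℕ) : Prop :=
  (∀ i, z i = 0 ∨ z i = 1) ∧ ∀ p : ZMod n → ℕ, IsP n k p → ∀ (c : ℤ) (q : ZMod n → ℕ),
    (∀ i, (q i : ℤ) = (p i : ℤ) + c * (z i : ℤ)) → IsP n k q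

theorem isP_iff (p : ZMod n → ℕ) : IsP n k p ↔ ∀ q, Move n k p q → ¬ IsP n k q := by
  rw [IsP]

theorem move_rot {p q : ZMod n → ℕ} (a : ZMod n) (h : Move n k (fun x => p (x + a)) q) :
    Move n k p fun x => q (x - a) := by
  obtain ⟨i, h1, h2, h3⟩ := h
  refine ⟨i + a, fun j hj => ?_, fun j => ?_, fun he => ?_⟩
  · have h4 : j - a ∉ window n k i := by
      rintro ⟨t, ht, hjt⟩
      exact hj ⟨t, ht, by rw [sub_eq_iff_eq_add] at hjt; rw [hjt]; ring⟩
    have h5 : q (j - a) = p (j - a + a) := h1 _ h4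
    rw [sub_add_cancel] at h5
    exact h5
  · have h5 : q (j - a) ≤ p (j - a + a) := h2 (j - a)
    rw [sub_add_cancel] at h5
    exact h5
  · apply h3
    funext x
    have h5 := congrFun he (x + a)
    rw [add_sub_cancel_right] at h5
    exact h5

theorem isP_rot_aux (N : ℕ) : ∀ (p : ZMod n → ℕ) (a : ZMod n), ∑ i, p i ≤ N → IsP n k p →
    IsP n k fun x => p (x + a) := by
  induction N with
  | zero =>
    intro p a hN hp
    rw [isP_iff]
    intro q hq _
    have h1 := (move_rot a hq).lt
    omega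
  | succ N ih =>
    intro p a hN hp
    rw [isP_iff]
    intro q hq hqP
    have h1 := move_rot a hq
    have h2 := h1.lt
    refine (isP_iff p).1 hp _ h1 ?_
    have h3 : ∑ x, q (x - a) = ∑ x, q x := Equiv.sum_comp (Equiv.subRight a) q
    have h4 := ih q (-a) (by omega) hqP
    have e : (fun x => q (x - a)) = fun x => q (x + -a) := by
      funext x
      rw [sub_eq_add_neg]
    rw [e]
    exact h4

/-- rotations preserve P-positions -/
theorem isP_rot {p : ZMod n → ℕ} (a : ZMod n) (hp : IsP n k p) : IsP n k fun x => p (x + a) :=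
  isP_rot_aux _ p a le_rfl hp

/-- The trace trick: if adding `z` preserves P-positions, so does adding `|z| 1`. -/
theorem isP_add_trace {z : ZMod n → ℕ} (hz : ∀ p, IsP n k p → IsP n k (p + z))
    {p : ZMod n → ℕ} (hp : IsP n k p) : IsP n k fun x => p x + ∑ a, z a := by
  have h1 : ∀ (a : ZMod n) (p : ZMod n → ℕ), IsP n k p → IsP n k fun x => p x + z (x + a) := by
    intro a p hp
    have h2 := isP_rot a (hz _ (isP_rot (-a) hp))
    have e : (fun x => ((fun x => p (x + -a)) + z) (x + a)) = fun x => p x + z (x + a) := by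
      funext x
      show p (x + a + -a) + z (x + a) = _
      rw [add_neg_cancel_right]
    rw [e] at h2
    exact h2
  have h2 : ∀ s : Finset (ZMod n), IsP n k fun x => p x + ∑ a ∈ s, z (x + a) := by
    intro s
    induction s using Finset.induction_on with
    | empty => simpa using hp
    | insert a s ha ih =>
      have h3 := h1 a _ ih
      have e : (fun x => p x + ∑ a ∈ s, z (x + a) + z (x + a)) =
          fun x => p x + ∑ b ∈ insert a s, z (x + b) := by
        funext x
        rw [Finset.sum_insert ha]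
        ring
      rw [e] at h3
      exact h3
  have h3 := h2 Finset.univ
  have e : (fun x => p x + ∑ a, z (x + a)) = fun x => p x + ∑ a, z a := by
    funext x
    congr 1
    exact Equiv.sum_comp (Equiv.addLeft x) z
  rw [e] at h3
  exact h3

theorem exists_part {X : Type*} [DecidableEq X] (C : Finset X) (q : X → ℕ) (v : ℕ)
    (hv : v ≤ ∑ x ∈ C, q x) : ∃ h : X → ℕ, (∀ x, h x ≤ q x) ∧ ∑ x ∈ C, h x = v := by
  induction v with
  | zero => exact ⟨fun _ => 0, fun _ => Nat.zero_le _, by simp⟩
  | succ v ih =>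
    obtain ⟨h, h1, h2⟩ := ih (by omega)
    obtain ⟨x, hx, hlt⟩ := Finset.exists_lt_of_sum_lt (s := C) (f := h) (g := q) (by omega)
    refine ⟨Function.update h x (h x + 1), fun y => ?_, ?_⟩
    · by_cases hy : y = x
      · rw [hy, Function.update_self]
        omega
      · rw [Function.update_of_ne hy]
        exact h1 y
    · rw [Finset.sum_update_of_mem hx]
      have h3 := Finset.add_sum_erase C h hx
      rw [Finset.sdiff_singleton_eq_erase]
      omega

open scoped Classical in
/-- Clusters: `T` is divided in clusters by `κ`; no move changes all clusters, and for every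
cluster there is a window containing all other clusters. Positions with support in `T` and all
cluster sums equal are P-positions. -/
theorem isP_cluster {ι : Type*} (T : Set (ZMod n)) (κ : ZMod n → ι)
    (h1 : ∀ i : ZMod n, ∃ y ∈ T, ∀ x ∈ T, κ x = κ y → x ∉ window n k i)
    (h2 : ∀ y ∈ T, ∃ i : ZMod n, ∀ x ∈ T, κ x ≠ κ y → x ∈ window n k i) (N : ℕ) :
    ∀ p : ZMod n → ℕ, ∑ i, p i ≤ N → (∀ x, x ∉ T → p x = 0) →
      ∀ V : ℕ, (∀ y ∈ T, ∑ x ∈ Finset.univ.filter (fun x => x ∈ T ∧ κ x = κ y), p x = V) →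
      IsP n k p := by
  induction N using Nat.strong_induction_on with
  | _ N ih =>
    intro p hN hp V hV
    rw [isP_iff]
    intro q hmv hq
    have hlt := hmv.lt
    obtain ⟨i, hkeep, hle, hne⟩ := hmv
    obtain ⟨y0, hy0, hy0'⟩ := h1 i
    obtain ⟨cs, hcs⟩ : ∃ cs : (ZMod n → ℕ) → ZMod n → ℕ, ∀ f y, cs f y =
        ∑ x ∈ Finset.univ.filter (fun x => x ∈ T ∧ κ x = κ y), f x :=
      ⟨fun f y => ∑ x ∈ Finset.univ.filter (fun x => x ∈ T ∧ κ x = κ y), f x, fun _ _ => rfl⟩
    simp only [← hcs] at hV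
    have hq0 : ∀ x, x ∉ T → q x = 0 := fun x hx => by
      have h3 := hle x
      rw [hp x hx] at h3
      omega
    have hcs0 : cs q y0 = V := by
      rw [← hV y0 hy0, hcs, hcs]
      refine Finset.sum_congr rfl fun x hx => ?_
      have h3 := (Finset.mem_filter.1 hx).2
      exact hkeep x (hy0' x h3.1 h3.2)
    obtain ⟨y1, hy1, hmin⟩ := Finset.exists_min_image (Finset.univ.filter (fun x => x ∈ T))
      (cs q) ⟨y0, Finset.mem_filter.2 ⟨Finset.mem_univ _, hy0⟩⟩
    have hy1T : y1 ∈ T := (Finset.mem_filter.1 hy1).2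
    have hmin' : ∀ y ∈ T, cs q y1 ≤ cs q y := fun y hy =>
      hmin y (Finset.mem_filter.2 ⟨Finset.mem_univ _, hy⟩)
    have hvV : cs q y1 < V := by
      obtain ⟨x, hx⟩ : ∃ x, q x ≠ p x := by
        by_contra hcon
        push Not at hcon
        exact hne (funext hcon)
      have hxlt : q x < p x := lt_of_le_of_ne (hle x) hx
      have hxT : x ∈ T := by
        by_contra hxT
        have := hp x hxT
        omega
      refine (hmin' x hxT).trans_lt ?_
      rw [← hV x hxT, hcs, hcs]
      exact Finset.sum_lt_sum (fun j _ => hle j)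
        ⟨x, Finset.mem_filter.2 ⟨Finset.mem_univ _, hxT, rfl⟩, hxlt⟩
    -- the reply
    have hch : ∀ c : ι, ∃ h : ZMod n → ℕ, (∀ x, h x ≤ q x) ∧
        ((∃ y ∈ T, κ y = c) →
          ∑ x ∈ Finset.univ.filter (fun x => x ∈ T ∧ κ x = c), h x = cs q y1) := by
      intro c
      by_cases hc : ∃ y ∈ T, κ y = c
      · obtain ⟨y, hy, hyc⟩ := hc
        have h3 := hmin' y hy
        rw [hcs q y, hyc] at h3
        obtain ⟨h, h4, h5⟩ := exists_part _ q (cs q y1) h3
        exact ⟨h, h4, fun _ => h5⟩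
      · exact ⟨q, fun _ => le_rfl, fun h => absurd h hc⟩
    choose h hh1 hh2 using hch
    obtain ⟨q', hq'⟩ : ∃ q' : ZMod n → ℕ, ∀ x, q' x =
        if x ∈ T then (if κ x = κ y1 then q x else h (κ x) x) else 0 := ⟨_, fun _ => rfl⟩
    have hle' : ∀ x, q' x ≤ q x := by
      intro x
      rw [hq']
      split_ifs
      · exact le_rfl
      · exact hh1 _ x
      · exact Nat.zero_le _
    have hsum : ∀ y ∈ T, cs q' y = cs q y1 := by
      intro y hy
      by_cases hyy : κ y = κ y1
      · rw [hcs, hcs, hyy]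
        refine Finset.sum_congr rfl fun x hx => ?_
        have h3 := (Finset.mem_filter.1 hx).2
        rw [hq', if_pos h3.1, if_pos h3.2]
      · rw [← hh2 (κ y) ⟨y, hy, rfl⟩, hcs]
        refine Finset.sum_congr rfl fun x hx => ?_
        have h3 := (Finset.mem_filter.1 hx).2
        rw [hq', if_pos h3.1, if_neg (by rw [h3.2]; exact hyy), h3.2]
    have hmv : Move n k q q' := by
      obtain ⟨i1, hi1⟩ := h2 y1 hy1T
      refine ⟨i1, fun x hx => ?_, hle', fun he => ?_⟩
      · rw [hq']
        by_cases hxT : x ∈ T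
        · rw [if_pos hxT]
          by_cases hxk : κ x = κ y1
          · rw [if_pos hxk]
          · exact absurd (hi1 x hxT hxk) hx
        · rw [if_neg hxT, hq0 x hxT]
      · have h3 := hsum y0 hy0
        rw [he, hcs0] at h3
        omega
    have hlt' := hmv.lt
    refine (isP_iff q).1 hq q' hmv (ih (∑ i, q' i) (by omega) q' le_rfl ?_ (cs q y1) ?_)
    · intro x hx
      rw [hq', if_neg hx]
    · intro y hy
      rw [← hcs]
      exact hsum y hy

/-- the same, clusters given as finite sets -/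
theorem isP_cluster' {ι : Type*} (T : Set (ZMod n)) (κ : ZMod n → ι)
    (h1 : ∀ i : ZMod n, ∃ y ∈ T, ∀ x ∈ T, κ x = κ y → x ∉ window n k i)
    (h2 : ∀ y ∈ T, ∃ i : ZMod n, ∀ x ∈ T, κ x ≠ κ y → x ∈ window n k i)
    (p : ZMod n → ℕ) (hp : ∀ x, x ∉ T → p x = 0) (V : ℕ)
    (hV : ∀ y ∈ T, ∀ C : Finset (ZMod n), (∀ x, x ∈ C ↔ x ∈ T ∧ κ x = κ y) →
      ∑ x ∈ C, p x = V) : IsP n k p := by
  classical
  refine isP_cluster T κ h1 h2 _ p le_rfl hp V fun y hy => hV y hy _ fun x => ?_
  simp

end Pool.Agent.W_30d1b9_h50
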