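import Pool.Agent.W_30d1b9_h50.Arc

/-!
# MP_30d1b9_co, Circular Nim: no invariant vectors for large `k`
-/

namespace Pool.Agent.W_30d1b9_h50

variable {n k : ℕ} [NeZero n]

theorem mul_pred {g : ℕ} (hg : 2 ≤ g) (m : ℕ) : m * (g - 2) + m = m * (g - 1) := by
  obtain ⟨g', rfl⟩ : ∃ g', g = g' + 2 := ⟨g - 2, by omega⟩
  rw [show g' + 2 - 2 = g' by omega, show g' + 2 - 1 = g' + 1 by omega]
  ring

open scoped Classical in
/-- the target in the main case -/
noncomputable def tgt (n g : ℕ) (b : ℕ → Prop) (m : ℕ) (x : ZMod n) : ℕ :=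
  if x.val + 1 < g then m
  else if x.val + 1 = g ∨ x.val + 1 = 2 * g ∨ b x.val then m * (g - 1) else 0

theorem isP_tgt {g : ℕ} {b : ℕ → Prop} (hb : Bd n g b) (hg : 2 ≤ g) (hk : g + k = n)
    (hn : 2 * g + 1 ≤ n) (hlast : n = 2 * g + 1 ∨ b (n - 2)) (m : ℕ) :
    IsP n k (tgt n g b m) := by
  refine isP_cluster' (T2 n g b) (fun x => kap g x.val) (T2_one hb hg hk hn hlast)
    (T2_two hb hg hk hn) _ (fun x hx => ?_) (m * (g - 1)) ?_
  · have h1 : ¬ (x.val < g ∨ x.val + 1 = 2 * g ∨ b x.val) := hx
    unfold tgt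
    rw [if_neg (by omega), if_neg]
    rintro (h | h | h)
    · exact h1 (Or.inl (by omega))
    · exact h1 (Or.inr (Or.inl h))
    · exact h1 (Or.inr (Or.inr h))
  · intro y hy C hC
    rcases Nat.lt_or_ge (y.val + 1) g with h0 | h0
    · have e : C = Finset.univ.filter (fun x : ZMod n => x.val < g - 1) := by
        ext x
        rw [hC, Finset.mem_filter]
        beta_reduce
        unfold kap
        rw [if_pos h0]
        constructor
        · rintro ⟨_, h1⟩
          refine ⟨Finset.mem_univ _, ?_⟩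
          split_ifs at h1 <;> omega
        · rintro ⟨_, h1⟩
          refine ⟨Or.inl (by omega), ?_⟩
          rw [if_pos (by omega)]
      have h2 : ∀ x ∈ C, tgt n g b m x = m := by
        intro x hx
        rw [e, Finset.mem_filter] at hx
        unfold tgt
        rw [if_pos (by omega)]
      rw [Finset.sum_congr rfl h2, Finset.sum_const, e, card_val_lt (by omega), smul_eq_mul,
        mul_comm]
    · rw [Finset.sum_eq_single y]
      · unfold tgt
        rw [if_neg (by omega), if_pos]
        rcases hy with h | h | h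
        · exact Or.inl (by omega)
        · exact Or.inr (Or.inl h)
        · exact Or.inr (Or.inr h)
      · intro x hx hxy
        have h1 := kap_eq ((hC x).1 hx).2
        exact absurd (ZMod.val_injective _ (show x.val = y.val by omega)) hxy
      · intro h
        exact absurd ((hC y).2 ⟨hy, rfl⟩) h

open scoped Classical in
theorem move_tgt {g : ℕ} {b : ℕ → Prop} (hb : Bd n g b) (hg : 2 ≤ g) (hk : g + k = n)
    (hn : 2 * g + 1 ≤ n) {m : ℕ} (hm : 0 < m) :
    Move n k (fun x => (if x ∈ T1 n g b then m * (g - 2) else 0) + m) (tgt n g b m) := by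
  have hbig : ∀ x : ZMod n, (x.val + 1 = g ∨ x.val + 1 = 2 * g ∨ b x.val) →
      (if x ∈ T1 n g b then m * (g - 2) else 0) + m = m * (g - 1) := by
    intro x hx
    have h1 : x ∈ T1 n g b := by
      rcases hx with h | h | h
      · exact Or.inl h
      · exact Or.inr (Or.inl h)
      · exact Or.inr (Or.inr (Or.inl h))
    rw [if_pos h1]
    exact mul_pred hg m
  refine ⟨((g : ℕ) : ZMod n), fun j hj => ?_, fun j => ?_, fun he => ?_⟩
  · rw [not_mem_window hk, val_cast (by omega)] at hj
    have hj2 := ZMod.val_lt j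
    unfold tgt
    rcases Nat.lt_or_ge (j.val + 1) g with h1 | h1
    · have h2 : j ∉ T1 n g b := by
        rintro (h | h | h | h)
        · omega
        · omega
        · have := hb.lo _ h
          omega
        · omega
      beta_reduce
      rw [if_pos h1, if_neg h2, zero_add]
    · have h2 : j.val + 1 = g := by omega
      beta_reduce
      rw [if_neg (by omega), if_pos (Or.inl h2), hbig j (Or.inl h2)]
  · unfold tgt
    beta_reduce
    split_ifs with h1 h2 h2 h2 h2
    all_goals first
      | omega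
      | (have h3 := hbig j (by assumption); rw [if_pos (by assumption)] at h3; omega)
      | (have h3 := hbig j (by assumption); rw [if_neg (by assumption)] at h3; omega)
  · have h1 := congrFun he ((n - 1 : ℕ) : ZMod n)
    have h2 : (((n - 1 : ℕ) : ZMod n)).val = n - 1 := val_cast (by omega)
    unfold tgt at h1
    beta_reduce at h1
    rw [h2, if_neg (by omega), if_neg] at h1
    · omega
    · rintro (h | h | h)
      · omega
      · omega
      · have := hb.hi _ h
        omega

theorem ne_cast {x : ZMod n} {v : ℕ} (hv : v < n) (h : x ≠ ((v : ℕ) : ZMod n)) : x.val ≠ v := by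
  intro hx
  apply h
  apply ZMod.val_injective
  rw [hx, val_cast hv]

theorem cast_ne {v w : ℕ} (hv : v < n) (hw : w < n) (h : v ≠ w) :
    ((v : ℕ) : ZMod n) ≠ ((w : ℕ) : ZMod n) := by
  intro he
  apply h
  have h1 := congrArg ZMod.val he
  rwa [val_cast hv, val_cast hw] at h1

/-- the target for `n = 2g + 2` -/
def tgt2 (n g m : ℕ) (x : ZMod n) : ℕ :=
  if x.val + 1 < g then m
  else if x.val + 1 = g ∨ x.val + 1 = 2 * g then m * (g - 1)
  else if x.val = 2 * g then m else 0

theorem isP_tgt2 {g : ℕ} (hg : 2 ≤ g) (hk : g + k = n) (hn : n = 2 * g + 2) (m : ℕ) :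
    IsP n k (tgt2 n g m) := by
  have vs : (((g - 1 : ℕ) : ZMod n)).val = g - 1 := val_cast (by omega)
  have vu : (((2 * g - 1 : ℕ) : ZMod n)).val = 2 * g - 1 := val_cast (by omega)
  have vy : (((g - 2 : ℕ) : ZMod n)).val = g - 2 := val_cast (by omega)
  have vy' : (((2 * g : ℕ) : ZMod n)).val = 2 * g := val_cast (by omega)
  have ts : tgt2 n g m ((g - 1 : ℕ) : ZMod n) = m * (g - 1) := by
    unfold tgt2
    rw [vs, if_neg (by omega), if_pos (by omega)]
  have tu : tgt2 n g m ((2 * g - 1 : ℕ) : ZMod n) = m * (g - 1) := by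
    unfold tgt2
    rw [vu, if_neg (by omega), if_pos (by omega)]
  have ty : tgt2 n g m ((g - 2 : ℕ) : ZMod n) = m := by
    unfold tgt2
    rw [vy, if_pos (by omega)]
  have ty' : tgt2 n g m ((2 * g : ℕ) : ZMod n) = m := by
    unfold tgt2
    rw [vy', if_neg (by omega), if_neg (by omega), if_pos rfl]
  have hA : ∀ v : ℕ, v < n → g ≤ v + 2 →
      ((v : ℕ) : ZMod n) ∉ Finset.univ.filter (fun x : ZMod n => x.val < g - 2) := by
    intro v hv hgv h
    rw [Finset.mem_filter, val_cast hv] at h
    omega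
  have hmem : ∀ v w : ℕ, v < n → w < n → ¬ ((w < v ∧ v ≤ w + g) ∨ v + k ≤ w) →
      ((w : ℕ) : ZMod n) ∈ window n k ((v : ℕ) : ZMod n) := by
    intro v w hv hw h
    by_contra hcon
    rw [not_mem_window hk, val_cast hv, val_cast hw] at hcon
    exact h hcon
  have hmemA : ∀ v : ℕ, v < n → g ≤ v → v + k ≥ g - 2 → (∀ w, w + 2 < g → ¬ (w < v ∧ v ≤ w + g)) →
      ∀ x ∈ Finset.univ.filter (fun x : ZMod n => x.val < g - 2),
        x ∈ window n k ((v : ℕ) : ZMod n) := by
    intro v hv h1 h2 h3 x hx
    rw [Finset.mem_filter] at hx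
    by_contra hcon
    rw [not_mem_window hk, val_cast hv] at hcon
    have h4 := h3 x.val (by omega)
    omega
  refine isP_ro (Finset.univ.filter (fun x : ZMod n => x.val < g - 2))
    (s := ((g - 1 : ℕ) : ZMod n)) (u := ((2 * g - 1 : ℕ) : ZMod n)) (y := ((g - 2 : ℕ) : ZMod n))
    (y' := ((2 * g : ℕ) : ZMod n)) (cast_ne (by omega) (by omega) (by omega))
    (cast_ne (by omega) (by omega) (by omega)) (cast_ne (by omega) (by omega) (by omega))
    (cast_ne (by omega) (by omega) (by omega)) (cast_ne (by omega) (by omega) (by omega))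
    (hA _ (by omega) (by omega)) (hA _ (by omega) (by omega)) (hA _ (by omega) (by omega))
    (hA _ (by omega) (by omega)) ?_ ?_ ?_ ?_ ?_ _ _ le_rfl ?_ ?_ ?_ ?_
  · intro i
    have hi := ZMod.val_lt i
    rw [not_mem_window hk, not_mem_window hk, not_mem_window hk, not_mem_window hk, vs, vu, vy, vy']
    rcases Nat.lt_or_ge i.val (g - 2) with h1 | h1
    · right; left
      omega
    rcases Nat.lt_or_ge i.val g with h2 | h2
    · right; right
      refine ⟨fun x hx => ?_, by omega⟩
      rw [Finset.mem_filter] at hx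
      rw [not_mem_window hk]
      omega
    rcases Nat.lt_or_ge i.val (2 * g) with h3 | h3
    · left
      omega
    · right; left
      omega
  · exact ⟨((2 * g - 1 : ℕ) : ZMod n), hmem _ _ (by omega) (by omega) (by omega),
      hmem _ _ (by omega) (by omega) (by omega), hmem _ _ (by omega) (by omega) (by omega),
      hmemA _ (by omega) (by omega) (by omega) (fun w hw => by omega)⟩
  · exact ⟨((2 * g : ℕ) : ZMod n), hmem _ _ (by omega) (by omega) (by omega),
      hmem _ _ (by omega) (by omega) (by omega), hmem _ _ (by omega) (by omega) (by omega),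
      hmemA _ (by omega) (by omega) (by omega) (fun w hw => by omega)⟩
  · exact ⟨((g - 1 : ℕ) : ZMod n), hmem _ _ (by omega) (by omega) (by omega),
      hmem _ _ (by omega) (by omega) (by omega), hmem _ _ (by omega) (by omega) (by omega)⟩
  · exact ⟨((g - 2 : ℕ) : ZMod n), hmem _ _ (by omega) (by omega) (by omega),
      hmem _ _ (by omega) (by omega) (by omega), hmem _ _ (by omega) (by omega) (by omega)⟩
  · intro x hx h1 h2 h3 h4
    have e1 := ne_cast (by omega) h1
    have e2 := ne_cast (by omega) h2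
    have e3 := ne_cast (by omega) h3
    have e4 := ne_cast (by omega) h4
    rw [Finset.mem_filter] at hx
    have e5 : ¬ x.val < g - 2 := fun h => hx ⟨Finset.mem_univ _, h⟩
    unfold tgt2
    rw [if_neg (by omega), if_neg (by omega), if_neg (by omega)]
  · rw [ts, tu]
  · rw [ts, ty]
    have h2 : ∀ x ∈ Finset.univ.filter (fun x : ZMod n => x.val < g - 2), tgt2 n g m x = m := by
      intro x hx
      rw [Finset.mem_filter] at hx
      unfold tgt2
      rw [if_pos (by omega)]
    rw [Finset.sum_congr rfl h2, Finset.sum_const, card_val_lt (by omega), smul_eq_mul,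
      mul_comm (g - 2)]
    exact (mul_pred hg m).symm
  · rw [ty, ty']

open scoped Classical in
theorem move_tgt2 {g : ℕ} (hg : 2 ≤ g) (hk : g + k = n) (hn : n = 2 * g + 2) {m : ℕ}
    (hm : 0 < m) :
    Move n k (fun x => (if x ∈ T1 n g (fun _ => False) then m * (g - 2) else 0) + m)
      (tgt2 n g m) := by
  have hmem : ∀ x : ZMod n, x ∈ T1 n g (fun _ => False) ↔
      x.val + 1 = g ∨ x.val + 1 = 2 * g ∨ x.val + 1 = n := by
    intro x
    show (_ ∨ _ ∨ False ∨ _) ↔ _
    rw [false_or]
  have hmp := mul_pred hg m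
  refine ⟨((g : ℕ) : ZMod n), fun j hj => ?_, fun j => ?_, fun he => ?_⟩
  · rw [not_mem_window hk, val_cast (by omega)] at hj
    have hj2 := ZMod.val_lt j
    unfold tgt2
    beta_reduce
    rcases Nat.lt_or_ge (j.val + 1) g with h1 | h1
    · rw [if_pos h1, if_neg (by rw [hmem]; omega), zero_add]
    · rw [if_neg (by omega), if_pos (by omega), if_pos (by rw [hmem]; omega)]
      exact hmp.symm
  · unfold tgt2
    beta_reduce
    rcases Nat.lt_or_ge (j.val + 1) g with h1 | h1
    · rw [if_pos h1]
      omega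
    rw [if_neg (by omega)]
    by_cases h2 : j.val + 1 = g ∨ j.val + 1 = 2 * g
    · rw [if_pos h2, if_pos (by rw [hmem]; omega)]
      exact hmp.symm.le
    · rw [if_neg h2]
      split_ifs <;> omega
  · have h1 := congrFun he ((n - 1 : ℕ) : ZMod n)
    have h2 : (((n - 1 : ℕ) : ZMod n)).val = n - 1 := val_cast (by omega)
    unfold tgt2 at h1
    beta_reduce at h1
    rw [h2, if_neg (by omega), if_neg (by omega), if_neg (by omega)] at h1
    omega

/-- **Main theorem.** No nonzero vector of nonnegative integers preserves the P-positions. -/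
theorem no_invariant (h2 : k + 2 ≤ n)
    (h : 2 * n + 1 ≤ 3 * k ∨ n + 1 = 2 * k ∨ n + 2 = 2 * k) (z : ZMod n → ℕ) (hz : z ≠ 0) :
    ∃ p, IsP n k p ∧ ¬ IsP n k (p + z) := by
  classical
  by_contra hcon
  push Not at hcon
  obtain ⟨g, hk⟩ : ∃ g, g + k = n := ⟨n - k, by omega⟩
  have hg : 2 ≤ g := by omega
  have hn : 2 * g + 1 ≤ n := by omega
  have hm : 0 < ∑ a, z a := by
    obtain ⟨x, hx⟩ : ∃ x, z x ≠ 0 := by
      by_contra hc
      push Not at hc
      exact hz (funext hc)
    exact lt_of_lt_of_le (Nat.pos_of_ne_zero hx)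
      (Finset.single_le_sum (fun i _ => Nat.zero_le _) (Finset.mem_univ x))
  by_cases hn2 : n = 2 * g + 2
  · have h3 := isP_add_trace hcon
      (isP_one (bd_false hg hn2) hg hk hn ((∑ a, z a) * (g - 2)))
    exact (isP_iff _).1 h3 _ (move_tgt2 hg hk hn2 hm) (isP_tgt2 hg hk hn2 _)
  · have hn3 : n = 2 * g + 1 ∨ 3 * g + 1 ≤ n := by omega
    have hb := bd_main (n := n) hg hn3
    have h3 := isP_add_trace hcon (isP_one hb hg hk hn ((∑ a, z a) * (g - 2)))
    refine (isP_iff _).1 h3 _ (move_tgt hb hg hk hn hm) (isP_tgt hb hg hk hn ?_ _)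
    rcases hn3 with h4 | h4
    · exact Or.inl h4
    · exact Or.inr ⟨by omega, 0, by omega⟩

end Pool.Agent.W_30d1b9_h50
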