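import Pool.Agent.W_30d1b9_h50.Base

/-!
# MP_30d1b9_co, Circular Nim: a family of P-positions with two levels
-/

namespace Pool.Agent.W_30d1b9_h50

variable {n k : ℕ} [NeZero n]

/-- Positions with `p s = p u = ∑_A p + p y`, `p y = p y'` and zero elsewhere. -/
theorem isP_ro (A : Finset (ZMod n)) {s u y y' : ZMod n} (hsu : s ≠ u) (hsy : s ≠ y)
    (hsy' : s ≠ y') (huy : u ≠ y) (huy' : u ≠ y') (hsA : s ∉ A) (huA : u ∉ A) (hyA : y ∉ A)
    (hyA' : y' ∉ A)
    (w1 : ∀ i, s ∉ window n k i ∨ u ∉ window n k i ∨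
      ((∀ x ∈ A, x ∉ window n k i) ∧ (y ∉ window n k i ∨ y' ∉ window n k i)))
    (w2 : ∃ i, u ∈ window n k i ∧ y ∈ window n k i ∧ y' ∈ window n k i ∧
      ∀ x ∈ A, x ∈ window n k i)
    (w3 : ∃ i, s ∈ window n k i ∧ y ∈ window n k i ∧ y' ∈ window n k i ∧
      ∀ x ∈ A, x ∈ window n k i)
    (w4 : ∃ i, s ∈ window n k i ∧ u ∈ window n k i ∧ y' ∈ window n k i)
    (w5 : ∃ i, s ∈ window n k i ∧ u ∈ window n k i ∧ y ∈ window n k i) (N : ℕ) :
    ∀ p : ZMod n → ℕ, ∑ i, p i ≤ N →
      (∀ x, x ∉ A → x ≠ s → x ≠ u → x ≠ y → x ≠ y' → p x = 0) →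
      p u = p s → p s = ∑ x ∈ A, p x + p y → p y' = p y → IsP n k p := by
  induction N using Nat.strong_induction_on with
  | _ N ih =>
    intro p hN hp h1 h2 h3
    rw [isP_iff]
    intro q hmv hq
    have hlt := hmv.lt
    obtain ⟨i, hkeep, hle, hne⟩ := hmv
    have hq0 : ∀ x, x ∉ A → x ≠ s → x ≠ u → x ≠ y → x ≠ y' → q x = 0 := by
      intro x a1 a2 a3 a4 a5
      have a6 := hle x
      rw [hp x a1 a2 a3 a4 a5] at a6
      omega
    have hAle : ∑ x ∈ A, q x ≤ ∑ x ∈ A, p x := Finset.sum_le_sum fun x _ => hle x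
    -- `q` is not in the class
    have hcl : ¬ (q u = q s ∧ q s = ∑ x ∈ A, q x + q y ∧ q y' = q y) := by
      rintro ⟨c1, c2, c3⟩
      have hs : q s = p s := by
        rcases w1 i with h4 | h4 | ⟨h4, h5⟩
        · exact hkeep s h4
        · rw [← c1, ← h1]
          exact hkeep u h4
        · have h6 : ∑ x ∈ A, q x = ∑ x ∈ A, p x :=
            Finset.sum_congr rfl fun x hx => hkeep x (h4 x hx)
          rcases h5 with h5 | h5
          · rw [c2, h2, h6, hkeep y h5]
          · rw [c2, h2, h6, ← c3, ← h3, hkeep y' h5]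
      have e1 := hle y
      have e2 : ∑ x ∈ A, q x = ∑ x ∈ A, p x := by omega
      have e3 : ∀ x ∈ A, q x = p x := (Finset.sum_eq_sum_iff_of_le fun x _ => hle x).1 e2
      have e4 : q y = p y := by omega
      apply hne
      funext x
      by_cases x1 : x = s
      · rw [x1, hs]
      by_cases x2 : x = u
      · rw [x2, c1, h1, hs]
      by_cases x3 : x = y
      · rw [x3, e4]
      by_cases x4 : x = y'
      · rw [x4, c3, h3, e4]
      by_cases x5 : x ∈ A
      · exact e3 x x5
      · rw [hp x x5 x1 x2 x3 x4, hq0 x x5 x1 x2 x3 x4]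
    -- replies
    have reply : ∀ (V w : ℕ) (h : ZMod n → ℕ), (∀ x, h x ≤ q x) → V ≤ q s → V ≤ q u → w ≤ q y →
        w ≤ q y' → V = ∑ x ∈ A, h x + w →
        (∃ i1, (s ∉ window n k i1 → V = q s) ∧ (u ∉ window n k i1 → V = q u) ∧
          (y ∉ window n k i1 → w = q y) ∧ (y' ∉ window n k i1 → w = q y') ∧
          (∀ x ∈ A, x ∉ window n k i1 → h x = q x)) → False := by
      rintro V w h hh hVs hVu hwy hwy' hV ⟨i1, k1, k2, k3, k4, k5⟩
      obtain ⟨q', hq'⟩ : ∃ q' : ZMod n → ℕ, ∀ x, q' x =
          if x = s ∨ x = u then V else if x = y ∨ x = y' then w else if x ∈ A then h x else 0 :=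
        ⟨_, fun _ => rfl⟩
      have es : q' s = V := by rw [hq', if_pos (Or.inl rfl)]
      have eu : q' u = V := by rw [hq', if_pos (Or.inr rfl)]
      have ey : q' y = w := by
        rw [hq', if_neg (by rintro (h | h); exact hsy h.symm; exact huy h.symm),
          if_pos (Or.inl rfl)]
      have ey' : q' y' = w := by
        rw [hq', if_neg (by rintro (h | h); exact hsy' h.symm; exact huy' h.symm),
          if_pos (Or.inr rfl)]
      have eA : ∀ x ∈ A, q' x = h x := by
        intro x hx
        rw [hq', if_neg (by rintro (h | h); exact hsA (h ▸ hx); exact huA (h ▸ hx)),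
          if_neg (by rintro (h | h); exact hyA (h ▸ hx); exact hyA' (h ▸ hx)), if_pos hx]
      have e0 : ∀ x, x ∉ A → x ≠ s → x ≠ u → x ≠ y → x ≠ y' → q' x = 0 := by
        intro x a1 a2 a3 a4 a5
        rw [hq', if_neg (by rintro (h | h); exact a2 h; exact a3 h),
          if_neg (by rintro (h | h); exact a4 h; exact a5 h), if_neg a1]
      have hsum : ∑ x ∈ A, q' x = ∑ x ∈ A, h x := Finset.sum_congr rfl fun x hx => eA x hx
      have hmv' : Move n k q q' := by
        refine ⟨i1, fun x hx => ?_, fun x => ?_, fun he => ?_⟩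
        · by_cases x1 : x = s
          · rw [x1] at hx ⊢
            rw [es, k1 hx]
          by_cases x2 : x = u
          · rw [x2] at hx ⊢
            rw [eu, k2 hx]
          by_cases x3 : x = y
          · rw [x3] at hx ⊢
            rw [ey, k3 hx]
          by_cases x4 : x = y'
          · rw [x4] at hx ⊢
            rw [ey', k4 hx]
          by_cases x5 : x ∈ A
          · rw [eA x x5, k5 x x5 hx]
          · rw [e0 x x5 x1 x2 x3 x4, hq0 x x5 x1 x2 x3 x4]
        · by_cases x1 : x = s
          · rw [x1, es]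
            exact hVs
          by_cases x2 : x = u
          · rw [x2, eu]
            exact hVu
          by_cases x3 : x = y
          · rw [x3, ey]
            exact hwy
          by_cases x4 : x = y'
          · rw [x4, ey']
            exact hwy'
          by_cases x5 : x ∈ A
          · rw [eA x x5]
            exact hh x
          · rw [e0 x x5 x1 x2 x3 x4]
            exact Nat.zero_le _
        · rw [← he] at hcl
          apply hcl
          rw [es, eu, ey, ey', hsum]
          exact ⟨rfl, hV, rfl⟩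
      have hlt' := hmv'.lt
      refine (isP_iff q).1 hq q' hmv' (ih (∑ i, q' i) (by omega) q' le_rfl e0 ?_ ?_ ?_)
      · rw [es, eu]
      · rw [es, ey, hsum]
        exact hV
      · rw [ey, ey']
    obtain ⟨a, ha⟩ : ∃ a, a = ∑ x ∈ A, q x := ⟨_, rfl⟩
    obtain ⟨w, hw⟩ : ∃ w, w = min (q y) (q y') := ⟨_, rfl⟩
    -- small value `v ≤ a + w` can be realised below
    have hsmall : ∀ v, v ≤ a + w → ∃ (h : ZMod n → ℕ) (w' : ℕ), (∀ x, h x ≤ q x) ∧ w' ≤ w ∧
        v = ∑ x ∈ A, h x + w' := by
      intro v hv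
      obtain ⟨h, hh1, hh2⟩ := exists_part A q (min a v) (by rw [← ha]; exact min_le_left _ _)
      exact ⟨h, v - min a v, hh1, by omega, by omega⟩
    have hwy : w ≤ q y := by omega
    have hwy' : w ≤ q y' := by omega
    rcases le_total (a + w) (q s) with hs | hs
    · rcases le_total (a + w) (q u) with hu | hu
      · rcases le_total (q y) (q y') with hyy | hyy
        · obtain ⟨i1, j1, j2, j3⟩ := w4
          refine reply (a + w) w q (fun _ => le_rfl) hs hu hwy hwy' (by rw [ha])
            ⟨i1, fun h => absurd j1 h, fun h => absurd j2 h, fun _ => by omega,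
              fun h => absurd j3 h, fun _ _ _ => rfl⟩
        · obtain ⟨i1, j1, j2, j3⟩ := w5
          refine reply (a + w) w q (fun _ => le_rfl) hs hu hwy hwy' (by rw [ha])
            ⟨i1, fun h => absurd j1 h, fun h => absurd j2 h, fun h => absurd j3 h,
              fun _ => by omega, fun _ _ _ => rfl⟩
      · obtain ⟨i1, j1, j2, j3, j4⟩ := w3
        obtain ⟨h, w', hh1, hh2, hh3⟩ := hsmall (q u) hu
        exact reply (q u) w' h hh1 (hu.trans hs) le_rfl (hh2.trans hwy) (hh2.trans hwy') hh3
          ⟨i1, fun h => absurd j1 h, fun _ => rfl, fun h => absurd j2 h, fun h => absurd j3 h,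
            fun x hx h => absurd (j4 x hx) h⟩
    · rcases le_total (q s) (q u) with hu | hu
      · obtain ⟨i1, j1, j2, j3, j4⟩ := w2
        obtain ⟨h, w', hh1, hh2, hh3⟩ := hsmall (q s) hs
        exact reply (q s) w' h hh1 le_rfl hu (hh2.trans hwy) (hh2.trans hwy') hh3
          ⟨i1, fun _ => rfl, fun h => absurd j1 h, fun h => absurd j2 h, fun h => absurd j3 h,
            fun x hx h => absurd (j4 x hx) h⟩
      · obtain ⟨i1, j1, j2, j3, j4⟩ := w3
        obtain ⟨h, w', hh1, hh2, hh3⟩ := hsmall (q u) (hu.trans hs)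
        exact reply (q u) w' h hh1 hu le_rfl (hh2.trans hwy) (hh2.trans hwy') hh3
          ⟨i1, fun h => absurd j1 h, fun _ => rfl, fun h => absurd j2 h, fun h => absurd j3 h,
            fun x hx h => absurd (j4 x hx) h⟩

end Pool.Agent.W_30d1b9_h50
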